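import Pool.Agent.H27.HB.TD

/-!
# Row CHI: a cutoff function
-/

set_option autoImplicit false

namespace Pool.Agent.H68.HB
open MeasureTheory Set Filter Topology Pool.Agent.H80.HS Pool.Agent.H93.HQ Pool.Agent.H27.HB
open scoped ContDiff ENNReal

theorem contDiff_N4 {n : ℕ} : ContDiff ℝ ∞ (fun z : H n => (sq z ^ 2 + z.2.2 ^ 2 : ℝ)) := by
  unfold H93.HQ.sq
  have h1 : ContDiff ℝ ∞ (fun z : H n => ‖z.1‖ ^ 2) := contDiff_fst.norm_sq ℝ
  have h2 : ContDiff ℝ ∞ (fun z : H n => ‖z.2.1‖ ^ 2) :=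
    (contDiff_fst.comp contDiff_snd).norm_sq ℝ
  have h3 : ContDiff ℝ ∞ (fun z : H n => z.2.2) := contDiff_snd.comp contDiff_snd
  exact ((h1.add h2).pow 2).add (h3.pow 2)

theorem pf_CHI : T_CHI := by
  intro n
  have hN0 : ∀ z : H n, 0 ≤ N z := fun z => Real.sqrt_nonneg _
  refine ⟨fun z => 1 - Real.smoothTransition (((sq z ^ 2 + z.2.2 ^ 2) - 1) / 15), ⟨?_, ?_⟩, ?_,
    ?_, ?_⟩
  · exact contDiff_const.sub (Real.smoothTransition.contDiff.comp
      ((contDiff_N4.sub contDiff_const).div_const 15))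
  · refine HasCompactSupport.intro (K := Metric.closedBall 0 4) (isCompact_closedBall _ _) ?_
    intro z hz
    have h16 : 16 ≤ sq z ^ 2 + z.2.2 ^ 2 := by
      by_contra hlt
      push Not at hlt
      apply hz
      rw [mem_closedBall_zero_iff, Prod.norm_def, Prod.norm_def]
      have hs0 : 0 ≤ sq z := by unfold H93.HQ.sq; positivity
      have hs : sq z ≤ 4 := by nlinarith [sq_nonneg z.2.2]
      have ht : |z.2.2| ≤ 4 := by
        apply abs_le_of_sq_le_sq
        · nlinarith [sq_nonneg (sq z)]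
        · norm_num
      unfold H93.HQ.sq at hs
      have hx : ‖z.1‖ ≤ 4 := by nlinarith [norm_nonneg z.1, sq_nonneg ‖z.2.1‖]
      have hy : ‖z.2.1‖ ≤ 4 := by nlinarith [norm_nonneg z.2.1, sq_nonneg ‖z.1‖]
      exact max_le hx (max_le hy (by simpa using ht))
    have : 1 ≤ ((sq z ^ 2 + z.2.2 ^ 2) - 1) / 15 := by
      rw [le_div_iff₀ (by norm_num)]; linarith
    simp only [Real.smoothTransition.one_of_one_le this, sub_self]
  · intro z
    constructor
    · have := Real.smoothTransition.le_one (((sq z ^ 2 + z.2.2 ^ 2) - 1) / 15)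
      linarith
    · have := Real.smoothTransition.nonneg (((sq z ^ 2 + z.2.2 ^ 2) - 1) / 15)
      linarith
  · intro z hz
    have h4 : sq z ^ 2 + z.2.2 ^ 2 ≤ 1 := by
      rw [← N_pow_four']
      exact pow_le_one₀ (hN0 z) hz
    have : ((sq z ^ 2 + z.2.2 ^ 2) - 1) / 15 ≤ 0 := by
      apply div_nonpos_of_nonpos_of_nonneg <;> linarith
    simp only [Real.smoothTransition.zero_of_nonpos this, sub_zero]
  · intro z hz
    have h4 : 16 ≤ sq z ^ 2 + z.2.2 ^ 2 := by
      rw [← N_pow_four']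
      calc (16 : ℝ) = 2 ^ 4 := by norm_num
        _ ≤ N z ^ 4 := pow_le_pow_left₀ (by norm_num) hz 4
    have : 1 ≤ ((sq z ^ 2 + z.2.2 ^ 2) - 1) / 15 := by
      rw [le_div_iff₀ (by norm_num)]; linarith
    simp only [Real.smoothTransition.one_of_one_le this, sub_self]

end Pool.Agent.H68.HB
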