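import Pool.Agent.H27.HB.TA

/-!
# Row UNA: unitary maps and the reflection act on the class `Cl`
-/

set_option autoImplicit false

namespace Pool.Agent.H68.HB
open MeasureTheory Set Filter Topology Pool.Agent.H80.HS Pool.Agent.H93.HQ Pool.Agent.H27.HB
open scoped ContDiff ENNReal

/-- The set `|z|² < 1, |t| < 1`. -/
def cyl (n : ℕ) : Set (H n) := {z | H93.HQ.sq z < 1 ∧ |z.2.2| < 1}

theorem cyl_isOpen (n : ℕ) : IsOpen (cyl n) := by
  have h1 : IsOpen {z : H n | H93.HQ.sq z < 1} := by
    refine isOpen_lt ?_ continuous_const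
    unfold H93.HQ.sq
    fun_prop
  have h2 : IsOpen {z : H n | |z.2.2| < 1} := by
    refine isOpen_lt ?_ continuous_const
    fun_prop
  exact h1.inter h2

theorem cyl_pos (n : ℕ) : volume (cyl n) ≠ 0 := by
  refine ((cyl_isOpen n).measure_pos volume ⟨0, ?_⟩).ne'
  simp [cyl, H93.HQ.sq]

theorem cyl_fin (n : ℕ) : volume (cyl n) ≠ ⊤ := by
  refine ((measure_mono ?_).trans_lt
    ((isCompact_closedBall (0 : H n) 1).measure_lt_top (μ := volume))).ne
  intro z hz
  obtain ⟨h1, h2⟩ := hz
  rw [mem_closedBall_zero_iff, Prod.norm_def, Prod.norm_def]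
  unfold H93.HQ.sq at h1
  have hx : ‖z.1‖ ≤ 1 := by nlinarith [norm_nonneg z.1, sq_nonneg ‖z.2.1‖]
  have hy : ‖z.2.1‖ ≤ 1 := by nlinarith [norm_nonneg z.2.1, sq_nonneg ‖z.1‖]
  exact max_le hx (max_le hy (by simpa using h2.le))

theorem mp_of_cyl {n : ℕ} (e : H n ≃L[ℝ] H n) (he : ∀ z, e z ∈ cyl n ↔ z ∈ cyl n) :
    MeasurePreserving e (volume : Measure (H n)) volume := by
  refine ⟨e.continuous.measurable, ?_⟩
  have hd : LinearMap.det (e.toLinearEquiv : H n →ₗ[ℝ] H n) ≠ 0 :=
    (LinearEquiv.isUnit_det' e.toLinearEquiv).ne_zero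
  have hH : (volume : Measure (H n)).IsAddHaarMeasure := by
    have h1 : (volume : Measure (V n × ℝ)).IsAddHaarMeasure :=
      Measure.prod.instIsAddHaarMeasure (volume : Measure (V n)) (volume : Measure ℝ)
    exact Measure.prod.instIsAddHaarMeasure (volume : Measure (V n))
      (volume : Measure (V n × ℝ))
  have hm := Measure.map_linearMap_addHaar_eq_smul_addHaar (volume : Measure (H n)) hd
  have hm' : Measure.map e (volume : Measure (H n)) =
      ENNReal.ofReal |(LinearMap.det (e.toLinearEquiv : H n →ₗ[ℝ] H n))⁻¹| •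
        (volume : Measure (H n)) := hm
  have h1 : Measure.map e (volume : Measure (H n)) (cyl n) = volume (cyl n) := by
    rw [Measure.map_apply e.continuous.measurable (cyl_isOpen n).measurableSet]
    congr 1
    ext z
    exact he z
  rw [hm'] at h1 ⊢
  rw [Measure.smul_apply, smul_eq_mul] at h1
  have h2 : ENNReal.ofReal |(LinearMap.det (e.toLinearEquiv : H n →ₗ[ℝ] H n))⁻¹| = 1 := by
    have h3 := (ENNReal.mul_left_inj (cyl_pos n) (cyl_fin n)).1 (h1.trans (one_mul _).symm)
    exact h3
  rw [h2, one_smul]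

theorem cl_comp {n : ℕ} {p : ℝ} (e : H n ≃L[ℝ] H n)
    (he : MeasurePreserving e (volume : Measure (H n)) volume) (O : G n →ₗ[ℝ] G n)
    (hO : ∀ g, ‖O g‖ = ‖g‖)
    (hch : ∀ φ : H n → ℝ, Tst φ → ∀ z, hg (fun z => φ (e z)) z = O (hg φ (e z)))
    (u : H n → ℝ) (g : H n → G n) (h : Cl p u g) :
    Cl p (fun z => u (e z)) (fun z => O (g (e z))) ∧ en p (fun z => O (g (e z))) = en p g := by
  have hemb : MeasurableEmbedding e := e.toHomeomorph.measurableEmbedding
  have hen : ∀ k : H n → G n, en p (fun z => O (k (e z))) = en p k := by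
    intro k
    unfold en
    simp only [hO]
    exact he.integral_comp hemb (fun z => ‖k z‖ ^ p)
  have hms : ∀ k : H n → ℝ, ms (ps n p) (fun z => k (e z)) = ms (ps n p) k := by
    intro k
    unfold ms
    exact he.integral_comp hemb (fun z => |k z| ^ ps n p)
  obtain ⟨hu, hg', φ, hφ, hm, hn⟩ := h
  refine ⟨⟨hu.comp_measurePreserving he, ?_, fun k z => φ k (e z), ?_, ?_, ?_⟩, hen g⟩
  · have h1 := hg'.comp_measurePreserving he
    have hOc : Continuous O := LinearMap.continuous_of_finiteDimensional O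
    refine h1.of_le (hOc.comp_aestronglyMeasurable h1.1) ?_
    filter_upwards with z
    rw [hO]
    rfl
  · intro k
    refine ⟨(hφ k).1.comp e.contDiff, ?_⟩
    exact (hφ k).2.comp_homeomorph e.toHomeomorph
  · refine hm.congr fun k => ?_
    exact (hms (fun z => φ k z - u z)).symm
  · refine hn.congr fun k => ?_
    rw [← hen]
    congr 1
    ext1 z
    rw [hch _ (hφ k), map_sub]

/-- The complex coordinates of a horizontal vector. -/
noncomputable def cw {n : ℕ} (g : G n) (i : Fin n) : ℂ := ⟨g (Sum.inl i), g (Sum.inr i)⟩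

/-- The horizontal vector with given complex coordinates. -/
noncomputable def mkG {n : ℕ} (w : Fin n → ℂ) : G n :=
  WithLp.toLp 2 (Sum.elim (fun j => (w j).re) (fun j => (w j).im))

theorem normSq_mkG {n : ℕ} (w : Fin n → ℂ) : ‖mkG w‖ ^ 2 = ∑ i, ‖w i‖ ^ 2 := by
  rw [EuclideanSpace.norm_sq_eq, Fintype.sum_sum_type, ← Finset.sum_add_distrib]
  refine Finset.sum_congr rfl fun i _ => ?_
  rw [← Complex.normSq_eq_norm_sq, Complex.normSq_apply]
  simp [mkG, pow_two]

theorem mkG_cw {n : ℕ} (g : G n) : mkG (cw g) = g := by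
  ext i
  rcases i with i | i <;> simp [mkG, cw]

theorem unitary_sum {n : ℕ} (A : Matrix (Fin n) (Fin n) ℂ)
    (hA : A ∈ Matrix.unitaryGroup (Fin n) ℂ) (w : Fin n → ℂ) :
    ∑ i, ‖A.mulVec w i‖ ^ 2 = ∑ i, ‖w i‖ ^ 2 := by
  have key : ∀ v : Fin n → ℂ, ((∑ i, ‖v i‖ ^ 2 : ℝ) : ℂ) = star v ⬝ᵥ v := by
    intro v
    simp only [dotProduct, Pi.star_apply, Complex.ofReal_sum, Complex.ofReal_pow]
    refine Finset.sum_congr rfl fun i _ => ?_
    rw [← Complex.conj_mul']
    rfl
  have h2 : star (A.mulVec w) ⬝ᵥ (A.mulVec w) = star w ⬝ᵥ w := by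
    rw [Matrix.star_mulVec, ← Matrix.dotProduct_mulVec, Matrix.mulVec_mulVec]
    have : A.conjTranspose * A = 1 := (Matrix.mem_unitaryGroup_iff').1 hA
    rw [this, Matrix.one_mulVec]
  exact_mod_cast (key _).trans (h2.trans (key _).symm)

theorem pf_UNA_rfn {n : ℕ} {p : ℝ} : MeasurePreserving rfn (volume : Measure (H n)) volume ∧
  ∀ (u : H n → ℝ) (g : H n → G n), Cl p u g →
    ∃ g' : H n → G n, Cl p (fun z => u (rfn z)) g' ∧ en p g' = en p g := by
  let e0 : H n ≃ₗ[ℝ] H n :=
    (LinearEquiv.refl ℝ (V n)).prodCongr ((LinearEquiv.neg ℝ).prodCongr (LinearEquiv.neg ℝ))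
  let e : H n ≃L[ℝ] H n := e0.toContinuousLinearEquiv
  have hee : ∀ z, e z = rfn z := fun z => rfl
  have hef : (e : H n → H n) = rfn := rfl
  have hmp : MeasurePreserving e (volume : Measure (H n)) volume := by
    apply mp_of_cyl
    intro z
    rw [hee]
    simp [cyl, rfn, H93.HQ.sq]
  refine ⟨hmp, ?_⟩
  intro u g hC
  let O : G n →ₗ[ℝ] G n :=
    { toFun := fun g => mkG (fun i => starRingEnd ℂ (cw g i))
      map_add' := by
        intro a b
        ext i
        rcases i with i | i
        · simp [mkG, cw]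
        · simp [mkG, cw]
          ring
      map_smul' := by
        intro c a
        ext i
        rcases i with i | i <;> simp [mkG, cw] }
  have hO : ∀ g, ‖O g‖ = ‖g‖ := by
    intro g
    have h1 : ‖O g‖ ^ 2 = ‖g‖ ^ 2 := by
      conv_rhs => rw [← mkG_cw g]
      change ‖mkG (fun i => starRingEnd ℂ (cw g i))‖ ^ 2 = _
      rw [normSq_mkG, normSq_mkG]
      simp
    exact (pow_left_inj₀ (norm_nonneg _) (norm_nonneg _) two_ne_zero).1 h1
  refine ⟨_, cl_comp e hmp O hO ?_ u g hC⟩
  intro φ hφ z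
  have hd : DifferentiableAt ℝ φ (e z) := (hφ.1.differentiable (by simp)).differentiableAt
  have hc : fderiv ℝ (fun z => φ (e z)) z = (fderiv ℝ φ (e z)).comp (e : H n →L[ℝ] H n) := by
    rw [fderiv_fun_comp z hd e.differentiableAt, e.fderiv]
  ext i
  rcases i with i | i
  · change X (fun z => φ (e z)) i z = (starRingEnd ℂ (cw (hg φ (e z)) i)).re
    have : (starRingEnd ℂ (cw (hg φ (e z)) i)).re = X φ i (e z) := by simp [cw, hg]
    rw [this]
    unfold X
    rw [hc]
    change fderiv ℝ φ (e z) (e _) = _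
    congr 1
    rw [hee, hee]
    simp [rfn]
  · change Y (fun z => φ (e z)) i z = (starRingEnd ℂ (cw (hg φ (e z)) i)).im
    have : (starRingEnd ℂ (cw (hg φ (e z)) i)).im = - Y φ i (e z) := by simp [cw, hg]
    rw [this]
    unfold Y
    rw [hc, ← map_neg]
    change fderiv ℝ φ (e z) (e _) = _
    congr 1
    rw [hee, hee]
    simp [rfn]

theorem pf_UNA_ua {n : ℕ} {p : ℝ} (A : Matrix (Fin n) (Fin n) ℂ)
    (hA : A ∈ Matrix.unitaryGroup (Fin n) ℂ) :
    MeasurePreserving (ua A) (volume : Measure (H n)) volume ∧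
  ∀ (u : H n → ℝ) (g : H n → G n), Cl p u g →
    ∃ g' : H n → G n, Cl p (fun z => u (ua A z)) g' ∧ en p g' = en p g := by
  have hA' : star A ∈ Matrix.unitaryGroup (Fin n) ℂ := Unitary.star_mem hA
  have hAA : star A * A = 1 := (Matrix.mem_unitaryGroup_iff').1 hA
  have hAA' : A * star A = 1 := (Matrix.mem_unitaryGroup_iff).1 hA
  have hua : ∀ (B : Matrix (Fin n) (Fin n) ℂ) (z : H n), ua B z =
      (WithLp.toLp 2 fun i => (B.mulVec (fun j => zc j z) i).re,
        WithLp.toLp 2 fun i => (B.mulVec (fun j => zc j z) i).im, z.2.2) := fun B z => rfl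
  have hzc : ∀ (B : Matrix (Fin n) (Fin n) ℂ) (z : H n) (j : Fin n), zc j (ua B z) =
      B.mulVec (fun j => zc j z) j := fun B z j => by
    apply Complex.ext <;> simp [zc, hua]
  have hinv : ∀ B C : Matrix (Fin n) (Fin n) ℂ, B * C = 1 → ∀ z : H n, ua B (ua C z) = z := by
    intro B C hBC z
    rw [hua B]
    have h1 : (fun j => zc j (ua C z)) = C.mulVec (fun j => zc j z) := by
      ext1 j; exact hzc C z j
    rw [h1, Matrix.mulVec_mulVec, hBC, Matrix.one_mulVec]
    rfl
  let f : Matrix (Fin n) (Fin n) ℂ → (H n →ₗ[ℝ] H n) := fun B =>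
    { toFun := ua B
      map_add' := by
        intro a b
        have : (fun j => zc j (a + b)) = (fun j => zc j a) + fun j => zc j b := by
          ext1 j
          apply Complex.ext <;> simp [zc]
        rw [hua, hua, hua, this, Matrix.mulVec_add]
        refine Prod.ext ?_ (Prod.ext ?_ ?_)
        · ext i; simp
        · ext i; simp
        · simp
      map_smul' := by
        intro c a
        have : (fun j => zc j (c • a)) = (c : ℂ) • fun j => zc j a := by
          ext1 j
          apply Complex.ext <;> simp [zc]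
        rw [hua, hua, this, Matrix.mulVec_smul]
        refine Prod.ext ?_ (Prod.ext ?_ ?_)
        · ext i; simp
        · ext i; simp
        · simp }
  let e0 : H n ≃ₗ[ℝ] H n := LinearEquiv.ofLinearMap (f A) (f (star A))
    (by apply LinearMap.ext; intro z; exact hinv A (star A) hAA' z)
    (by apply LinearMap.ext; intro z; exact hinv (star A) A hAA z)
  let e : H n ≃L[ℝ] H n := e0.toContinuousLinearEquiv
  have hee : ∀ z, e z = ua A z := fun z => rfl
  have hsq : ∀ z : H n, H93.HQ.sq z = ∑ i, ‖zc i z‖ ^ 2 := by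
    intro z
    unfold H93.HQ.sq
    rw [EuclideanSpace.norm_sq_eq, EuclideanSpace.norm_sq_eq, ← Finset.sum_add_distrib]
    refine Finset.sum_congr rfl fun i _ => ?_
    rw [← Complex.normSq_eq_norm_sq, Complex.normSq_apply]
    simp [zc, pow_two]
  have hmp : MeasurePreserving e (volume : Measure (H n)) volume := by
    apply mp_of_cyl
    intro z
    rw [hee]
    have h1 : H93.HQ.sq (ua A z) = H93.HQ.sq z := by
      rw [hsq, hsq]
      simp only [hzc]
      exact unitary_sum A hA _
    have h2 : (ua A z).2.2 = z.2.2 := rfl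
    simp only [cyl, Set.mem_ofPred_eq, h1, h2]
  refine ⟨hmp, ?_⟩
  intro u g hC
  let O : G n →ₗ[ℝ] G n :=
    { toFun := fun g => mkG ((star A).mulVec (cw g))
      map_add' := by
        intro a b
        have : cw (a + b) = cw a + cw b := by
          ext1 j
          apply Complex.ext <;> simp [cw]
        rw [this, Matrix.mulVec_add]
        ext i
        rcases i with i | i <;> simp [mkG]
      map_smul' := by
        intro c a
        have : cw (c • a) = (c : ℂ) • cw a := by
          ext1 j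
          apply Complex.ext <;> simp [cw]
        rw [this, Matrix.mulVec_smul]
        ext i
        rcases i with i | i <;> simp [mkG] }
  have hO : ∀ g, ‖O g‖ = ‖g‖ := by
    intro g
    have h1 : ‖O g‖ ^ 2 = ‖g‖ ^ 2 := by
      conv_rhs => rw [← mkG_cw g]
      change ‖mkG ((star A).mulVec (cw g))‖ ^ 2 = _
      rw [normSq_mkG, normSq_mkG]
      exact unitary_sum _ hA' _
    exact (pow_left_inj₀ (norm_nonneg _) (norm_nonneg _) two_ne_zero).1 h1
  refine ⟨_, cl_comp e hmp O hO ?_ u g hC⟩
  intro φ hφ z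
  have hd : DifferentiableAt ℝ φ (e z) := (hφ.1.differentiable (by simp)).differentiableAt
  have hc : fderiv ℝ (fun z => φ (e z)) z = (fderiv ℝ φ (e z)).comp (e : H n →L[ℝ] H n) := by
    rw [fderiv_fun_comp z hd e.differentiableAt, e.fderiv]
  -- the inverse relation for the coordinates
  have hrel : ∀ j, ∑ i, starRingEnd ℂ (A i j) * zc i (e z) = zc j z := by
    intro j
    have h1 : (star A).mulVec (fun i => zc i (ua A z)) j = zc j z := by
      rw [← hzc, hinv _ _ hAA]
    rw [← h1]
    simp [Matrix.mulVec, dotProduct, Matrix.star_apply, hee]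
  have hx : ∀ j, ∑ i, ((A i j).re * (e z).1 i + (A i j).im * (e z).2.1 i) = z.1 j := by
    intro j
    have := congrArg Complex.re (hrel j)
    rw [Complex.re_sum] at this
    simpa [zc, Complex.mul_re] using this
  have hy : ∀ j, ∑ i, ((A i j).re * (e z).2.1 i - (A i j).im * (e z).1 i) = z.2.1 j := by
    intro j
    have := congrArg Complex.im (hrel j)
    rw [Complex.im_sum] at this
    have h2 : ∀ i, (starRingEnd ℂ (A i j) * zc i (e z)).im =
        (A i j).re * (e z).2.1 i - (A i j).im * (e z).1 i := by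
      intro i
      simp [zc, Complex.mul_im]
      ring
    simp only [h2] at this
    simpa [zc] using this
  have hvx : ∀ j, e (EuclideanSpace.single j (1 : ℝ), 0, 2 * z.2.1 j) =
      ∑ i, ((A i j).re • ((EuclideanSpace.single i (1 : ℝ), 0, 2 * (e z).2.1 i) : H n) +
        (A i j).im • ((0, EuclideanSpace.single i (1 : ℝ), -2 * (e z).1 i) : H n)) := by
    intro j
    have hz1 : (fun k => zc k ((EuclideanSpace.single j (1 : ℝ), 0, 2 * z.2.1 j) : H n)) =
        Pi.single j (1 : ℂ) := by
      ext1 k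
      apply Complex.ext <;> by_cases h : k = j <;> simp [zc, h]
    rw [hee, hua, hz1, Matrix.mulVec_single_one]
    refine Prod.ext ?_ (Prod.ext ?_ ?_)
    · ext i
      simp [Prod.fst_sum, Matrix.col_apply, Pi.single_apply]
    · ext i
      simp [Prod.fst_sum, Prod.snd_sum, Matrix.col_apply, Pi.single_apply]
    · rw [Prod.snd_sum, Prod.snd_sum]
      simp only [Prod.snd_add, Prod.smul_snd, smul_eq_mul]
      rw [← hy j, Finset.mul_sum]
      refine Finset.sum_congr rfl fun i _ => ?_
      ring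
  have hvy : ∀ j, e (0, EuclideanSpace.single j (1 : ℝ), -2 * z.1 j) =
      ∑ i, ((-(A i j).im) • ((EuclideanSpace.single i (1 : ℝ), 0, 2 * (e z).2.1 i) : H n) +
        (A i j).re • ((0, EuclideanSpace.single i (1 : ℝ), -2 * (e z).1 i) : H n)) := by
    intro j
    have hz1 : (fun k => zc k ((0, EuclideanSpace.single j (1 : ℝ), -2 * z.1 j) : H n)) =
        Complex.I • Pi.single j (1 : ℂ) := by
      ext1 k
      apply Complex.ext <;> by_cases h : k = j <;> simp [zc, h]
    rw [hee, hua, hz1, Matrix.mulVec_smul, Matrix.mulVec_single_one]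
    refine Prod.ext ?_ (Prod.ext ?_ ?_)
    · ext i
      simp [Prod.fst_sum, Matrix.col_apply, Pi.single_apply]
    · ext i
      simp [Prod.fst_sum, Prod.snd_sum, Matrix.col_apply, Pi.single_apply]
    · rw [Prod.snd_sum, Prod.snd_sum]
      simp only [Prod.snd_add, Prod.smul_snd, smul_eq_mul]
      rw [← hx j, Finset.mul_sum]
      refine Finset.sum_congr rfl fun i _ => ?_
      ring
  ext j
  rcases j with j | j
  · change X (fun z => φ (e z)) j z = ((star A).mulVec (cw (hg φ (e z))) j).re
    have h1 : ((star A).mulVec (cw (hg φ (e z))) j).re =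
        ∑ i, ((A i j).re * X φ i (e z) + (A i j).im * Y φ i (e z)) := by
      simp only [Matrix.mulVec, dotProduct, Complex.re_sum]
      refine Finset.sum_congr rfl fun i _ => ?_
      simp [Matrix.star_apply, cw, hg, Complex.mul_re]
    rw [h1]
    unfold X Y
    rw [hc]
    change fderiv ℝ φ (e z) (e _) = _
    rw [hvx j, map_sum]
    refine Finset.sum_congr rfl fun i _ => ?_
    rw [map_add, map_smul, map_smul]
    rfl
  · change Y (fun z => φ (e z)) j z = ((star A).mulVec (cw (hg φ (e z))) j).im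
    have h1 : ((star A).mulVec (cw (hg φ (e z))) j).im =
        ∑ i, (-(A i j).im * X φ i (e z) + (A i j).re * Y φ i (e z)) := by
      simp only [Matrix.mulVec, dotProduct, Complex.im_sum]
      refine Finset.sum_congr rfl fun i _ => ?_
      simp [Matrix.star_apply, cw, hg, Complex.mul_im]
      ring
    rw [h1]
    unfold X Y
    rw [hc]
    change fderiv ℝ φ (e z) (e _) = _
    rw [hvy j, map_sum]
    refine Finset.sum_congr rfl fun i _ => ?_
    rw [map_add, map_smul, map_smul]
    rfl

theorem pf_UNA (_hHGA : T_HGA) (_hHGC : T_HGC) : T_UNA := by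
  intro n _ p _ _ Φ hΦ
  rcases hΦ with ⟨A, hA, rfl⟩ | rfl
  · exact pf_UNA_ua A hA
  · exact pf_UNA_rfn

end Pool.Agent.H68.HB
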