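import Pool.Agent.H27.HB.TA

/-!
# Row ZER: the gradient of zero is zero
-/

set_option autoImplicit false

namespace Pool.Agent.H68.HB
open MeasureTheory Set Filter Topology Pool.Agent.H80.HS Pool.Agent.H93.HQ Pool.Agent.H27.HB
open scoped ContDiff ENNReal

/-- Integrals against a continuous function with compact support tend to zero. -/
theorem tendsto_test {n : ℕ} {E : Type} [NormedAddCommGroup E] {r : ℝ} (hr : 1 < r)
    (f : ℕ → H n → E) (hf : ∀ k, MemLp (f k) (ENNReal.ofReal r))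
    (ht : Tendsto (fun k => ∫ z, ‖f k z‖ ^ r) atTop (𝓝 0)) (ψ : H n → ℝ) (hψ : Continuous ψ)
    (hc : HasCompactSupport ψ) (v : ℕ → H n → ℝ) (hv : ∀ k z, |v k z| ≤ ‖f k z‖) :
    Tendsto (fun k => ∫ z, v k z * ψ z) atTop (𝓝 0) := by
  have hpq := Real.HolderConjugate.conjExponent hr
  set q := Real.conjExponent r
  have hψq : MemLp ψ (ENNReal.ofReal q) := hψ.memLp_of_hasCompactSupport hc
  have hb : ∀ k, |∫ z, v k z * ψ z| ≤
      (∫ z, ‖f k z‖ ^ r) ^ (1 / r) * (∫ z, |ψ z| ^ q) ^ (1 / q) := by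
    intro k
    have h1 : ∫ z, ‖f k z‖ * |ψ z| ≤
        (∫ z, ‖f k z‖ ^ r) ^ (1 / r) * (∫ z, |ψ z| ^ q) ^ (1 / q) :=
      integral_mul_le_Lp_mul_Lq_of_nonneg hpq (Eventually.of_forall fun z => norm_nonneg _)
        (Eventually.of_forall fun z => abs_nonneg _) (hf k).norm hψq.norm
    refine le_trans ?_ h1
    rw [← Real.norm_eq_abs]
    refine norm_integral_le_of_norm_le ?_ (Eventually.of_forall fun z => ?_)
    · have := hpq.ennrealOfReal
      exact (hf k).norm.integrable_mul hψq.norm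
    · rw [Real.norm_eq_abs, abs_mul]
      exact mul_le_mul_of_nonneg_right (hv k z) (abs_nonneg _)
  refine squeeze_zero_norm hb ?_
  have h2 : Tendsto (fun k => (∫ z, ‖f k z‖ ^ r) ^ (1 / r) * (∫ z, |ψ z| ^ q) ^ (1 / q)) atTop
      (𝓝 ((0 : ℝ) ^ (1 / r) * (∫ z, |ψ z| ^ q) ^ (1 / q))) :=
    (ht.rpow_const (Or.inr (by positivity))).mul_const _
  rwa [Real.zero_rpow (by positivity), zero_mul] at h2

theorem X_ofReal {n : ℕ} (ψ : H n → ℝ) (hψ : ContDiff ℝ ∞ ψ) (j : Fin n) (z : H n) :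
    X (fun z => ((ψ z : ℝ) : ℂ)) j z = ((X ψ j z : ℝ) : ℂ) := by
  have h := (hψ.differentiable (by simp)) z
  have h1 : HasFDerivAt (fun z => ((ψ z : ℝ) : ℂ)) (Complex.ofRealCLM.comp (fderiv ℝ ψ z)) z :=
    Complex.ofRealCLM.hasFDerivAt.comp z h.hasFDerivAt
  unfold X
  rw [h1.fderiv]
  rfl

theorem Y_ofReal {n : ℕ} (ψ : H n → ℝ) (hψ : ContDiff ℝ ∞ ψ) (j : Fin n) (z : H n) :
    Y (fun z => ((ψ z : ℝ) : ℂ)) j z = ((Y ψ j z : ℝ) : ℂ) := by
  have h := (hψ.differentiable (by simp)) z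
  have h1 : HasFDerivAt (fun z => ((ψ z : ℝ) : ℂ)) (Complex.ofRealCLM.comp (fderiv ℝ ψ z)) z :=
    Complex.ofRealCLM.hasFDerivAt.comp z h.hasFDerivAt
  unfold Y
  rw [h1.fderiv]
  rfl

/-- Integration by parts for real functions. -/
theorem ibp_real (hIBP : T_IBP) {n : ℕ} (φ ψ : H n → ℝ) (hφ : Tst φ) (hψ : ContDiff ℝ ∞ ψ)
    (i : Fin n ⊕ Fin n) :
    ∫ z, (hg φ z).ofLp i * ψ z = - ∫ z, φ z * (hg ψ z).ofLp i := by
  have hF : ContDiff ℝ 1 fun z : H n => ((ψ z : ℝ) : ℂ) :=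
    Complex.ofRealCLM.contDiff.comp (hψ.of_le (by exact_mod_cast le_top))
  rcases i with j | j
  · have h := (hIBP n φ (fun z => ((ψ z : ℝ) : ℂ)) j hφ hF).1
    simp only [X_ofReal ψ hψ] at h
    have h1 : ∫ z, (((X φ j z * ψ z : ℝ)) : ℂ) = - ∫ z, (((φ z * X ψ j z : ℝ)) : ℂ) := by
      simpa using h
    rw [integral_complex_ofReal, integral_complex_ofReal] at h1
    exact_mod_cast h1
  · have h := (hIBP n φ (fun z => ((ψ z : ℝ) : ℂ)) j hφ hF).2
    simp only [Y_ofReal ψ hψ] at h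
    have h1 : ∫ z, (((Y φ j z * ψ z : ℝ)) : ℂ) = - ∫ z, (((φ z * Y ψ j z : ℝ)) : ℂ) := by
      simpa using h
    rw [integral_complex_ofReal, integral_complex_ofReal] at h1
    exact_mod_cast h1

theorem pf_ZER (hIBP : T_IBP) (hHGC : T_HGC) (_hHGA : T_HGA) : T_ZER := by
  intro n hn p h1 h2 g hC
  obtain ⟨-, hg', φ, hφ, hm, he⟩ := hC
  have hps : 1 < ps n p := by
    unfold ps
    rw [lt_div_iff₀ (by linarith)]
    nlinarith
  have hc0 : ∀ k, MemLp (φ k) (ENNReal.ofReal (ps n p)) := fun k =>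
    (hφ k).1.continuous.memLp_of_hasCompactSupport (hφ k).2
  have hcg : ∀ k, MemLp (hg (φ k)) (ENNReal.ofReal p) := fun k => by
    obtain ⟨a1, -, -, a4⟩ := hHGC n (φ k)
    exact (a1 ((hφ k).1.of_le (by exact_mod_cast le_top))).memLp_of_hasCompactSupport
      (a4 (hφ k).2)
  have hgi : ∀ i, MemLp (fun z => (g z).ofLp i) (ENNReal.ofReal p) := fun i =>
    (EuclideanSpace.proj (𝕜 := ℝ) i : G n →L[ℝ] ℝ).comp_memLp' hg'
  have hp1 : (1 : ℝ≥0∞) ≤ ENNReal.ofReal p := by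
    rw [ENNReal.one_le_ofReal]
    exact h1.le
  have key : ∀ i, ∀ ψ : H n → ℝ, ContDiff ℝ ∞ ψ → HasCompactSupport ψ →
      ∫ z, ψ z • (g z).ofLp i = 0 := by
    intro i ψ hψ hc
    have hT : Tst ψ := ⟨hψ, hc⟩
    obtain ⟨hg1, -, -, hg4⟩ := hHGC n ψ
    have c1 : Continuous (hg ψ) := hg1 (hψ.of_le (by exact_mod_cast le_top))
    -- the first limit
    have t1 : Tendsto (fun k => ∫ z, ((hg (φ k) z).ofLp i - (g z).ofLp i) * ψ z) atTop (𝓝 0) :=
      tendsto_test h1 (fun k z => hg (φ k) z - g z) (fun k => (hcg k).sub hg') he ψ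
        hψ.continuous hc (fun k z => (hg (φ k) z).ofLp i - (g z).ofLp i) fun k z => by
          have := PiLp.norm_apply_le (hg (φ k) z - g z) i
          simpa using this
    have t2 : Tendsto (fun k => ∫ z, φ k z * (hg ψ z).ofLp i) atTop (𝓝 0) := by
      refine tendsto_test (E := ℝ) hps (fun k z => φ k z) (fun k => (hc0 k)) ?_
        (fun z => (hg ψ z).ofLp i) ?_ ?_ (fun k z => φ k z) fun k z => le_rfl
      · simpa [ms] using hm
      · exact (EuclideanSpace.proj (𝕜 := ℝ) i : G n →L[ℝ] ℝ).continuous.comp c1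
      · exact (hg4 hc).comp_left (g := fun w : G n => w.ofLp i) rfl
    have e1 : ∀ k, ∫ z, ψ z • (g z).ofLp i =
        - (∫ z, φ k z * (hg ψ z).ofLp i) - ∫ z, ((hg (φ k) z).ofLp i - (g z).ofLp i) * ψ z := by
      intro k
      rw [← ibp_real hIBP (φ k) ψ (hφ k) hψ i, ← integral_sub]
      · refine integral_congr_ae (Eventually.of_forall fun z => ?_)
        simp only [smul_eq_mul]
        ring
      · have hki : MemLp (fun z => (hg (φ k) z).ofLp i) (ENNReal.ofReal p) :=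
          (EuclideanSpace.proj (𝕜 := ℝ) i : G n →L[ℝ] ℝ).comp_memLp' (hcg k)
        have := (hki.locallyIntegrable hp1).integrable_smul_left_of_hasCompactSupport
          hψ.continuous hc
        simpa [mul_comm] using this
      · have hki : MemLp (fun z => (hg (φ k) z).ofLp i - (g z).ofLp i) (ENNReal.ofReal p) :=
          ((EuclideanSpace.proj (𝕜 := ℝ) i : G n →L[ℝ] ℝ).comp_memLp' (hcg k)).sub (hgi i)
        have := (hki.locallyIntegrable hp1).integrable_smul_left_of_hasCompactSupport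
          hψ.continuous hc
        simpa [mul_comm] using this
    have t3 : Tendsto (fun _ : ℕ => ∫ z, ψ z • (g z).ofLp i) atTop (𝓝 (-0 - 0)) :=
      (t2.neg.sub t1).congr fun k => (e1 k).symm
    have := tendsto_nhds_unique tendsto_const_nhds t3
    simpa using this
  have hae : ∀ i, ∀ᵐ z, (g z).ofLp i = 0 := fun i =>
    ae_eq_zero_of_integral_contDiff_smul_eq_zero ((hgi i).locallyIntegrable hp1) (key i)
  filter_upwards [ae_all_iff.2 hae] with z hz
  ext i
  exact hz i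

end Pool.Agent.H68.HB
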