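import Pool.Agent.H27.HB.TA

/-!
# Row SOB: the Sobolev inequality on the completion
-/

set_option autoImplicit false

namespace Pool.Agent.H68.HB
open MeasureTheory Set Filter Topology Pool.Agent.H80.HS Pool.Agent.H93.HQ Pool.Agent.H27.HB
open scoped ContDiff ENNReal

theorem one_le_ps {n : ℕ} {p : ℝ} (h1 : 1 < p) (h2 : p < 2 * n + 2) : 1 < ps n p := by
  unfold ps
  rw [lt_div_iff₀ (by linarith)]
  nlinarith

theorem pf_SOB (hTQ : T_TQ) (hCLT : T_CLT) (hLPN : T_LPN) : T_SOB := by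
  intro n hn p S h1 h2 hS u g hC
  obtain ⟨hu, hg', φ, hφ, hm, he⟩ := hC
  have hps := one_le_ps h1 h2
  have hk := fun k => (hTQ n hn p S h1 h2 hS).1 (φ k) (hφ k)
  have hck := fun k => hCLT n hn p h1 h2 (φ k) (hφ k)
  have t1 : Tendsto (fun k => ms (ps n p) (φ k)) atTop (𝓝 (ms (ps n p) u)) :=
    hLPN n ℝ (ps n p) φ u hps.le (fun k => (hck k).1) hu hm
  have t2 : Tendsto (fun k => en p (hg (φ k))) atTop (𝓝 (en p g)) :=
    hLPN n (G n) p (fun k => hg (φ k)) g h1.le (fun k => (hck k).2.1) hg' he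
  have hth : 0 ≤ th n p := by
    unfold th
    exact div_nonneg (by linarith) (by positivity)
  exact le_of_tendsto_of_tendsto' ((t1.rpow_const (Or.inr hth)).const_mul S) t2 hk

end Pool.Agent.H68.HB
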